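import Pool.Agent.Helper326_TP.Defs

set_option autoImplicit false

/-!
The a priori bound for the corrections.
-/

namespace Pool.Agent.Helper326_TP



/-- TARGET -/
theorem apriori {E : Type} [NormedAddCommGroup E] [InnerProductSpace ℝ E]
    {r : ℕ} (hr : 2 ≤ r) {ι : Type} [Fintype ι]
    (p : ι → E) (L : Submodule ℝ (X r ι)) (hL : ∀ u ∈ L, ∀ v, ∑ j, u (j, v) = 0) (H : Fin r → ι → ℝ)
    (C : ℝ) (hC : ∀ j v, |H j v| ≤ C) (o : E) (R ε δ : ℝ) (hε : 0 < ε) (hδ : δ ≤ 1)
    (u : X r ι) (s : E) (w : Fin r × ι → ℝ) (t : Fin r × Fin r × ι → ℝ) (κ : ℝ)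
    (hS : Sol p L H o R ε δ u s w t κ) (μ : ℝ) (hμ : ∀ v, μ ≤ inner ℝ s (p v)) (j : Fin r) (v : ι) :
    |u (j, v)| ≤ r * (inner ℝ s (p v) - μ + 2 * C + 1) := by
  have hC0 : 0 ≤ C := (abs_nonneg _).trans (hC j v)
  have hB0 : 0 ≤ inner ℝ s (p v) - μ + 2 * C + 1 := by have := hμ v; linarith
  have low : ∀ i : Fin r, -(inner ℝ s (p v) - μ + 2 * C + 1) ≤ u (i, v) := by
    intro i
    have h1 : ∑ q, w q * hv p H u s q.1 q.2 ≤ ∑ q, w q * (hv p H u s i v + 1) := by
      refine Finset.sum_le_sum fun q _ => ?_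
      by_cases hq : w q = 0
      · simp [hq]
      · exact mul_le_mul_of_nonneg_left
          ((hS.wsupp q.1 q.2 hq i v).trans (by linarith)) (hS.w0 q)
    rw [← Finset.sum_mul, hS.w1, one_mul] at h1
    have h2 : ∑ q, w q * hv p H u s q.1 q.2 =
        ∑ q, w q * (H q.1 q.2 + inner ℝ s (p q.2)) + ∑ q, w q * u q := by
      rw [← Finset.sum_add_distrib]
      refine Finset.sum_congr rfl fun q _ => ?_
      unfold hv
      ring
    have h3 : ∑ q, w q * (-C + μ) ≤ ∑ q, w q * (H q.1 q.2 + inner ℝ s (p q.2)) := by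
      refine Finset.sum_le_sum fun q _ => mul_le_mul_of_nonneg_left ?_ (hS.w0 q)
      have := (abs_le.1 (hC q.1 q.2)).1
      have := hμ q.2
      linarith
    rw [← Finset.sum_mul, hS.w1, one_mul] at h3
    have h4 : 0 ≤ ∑ q, w q * u q := by
      rw [← hS.stat u hS.hu]
      have := real_inner_self_nonneg (x := u)
      positivity
    have h5 := (abs_le.1 (hC i v)).2
    have h6 : hv p H u s i v = H i v + u (i, v) + inner ℝ s (p v) := rfl
    linarith
  have hsum := hL u hS.hu v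
  have hsplit : u (j, v) = -∑ i ∈ Finset.univ.erase j, u (i, v) := by
    have := Finset.add_sum_erase Finset.univ (fun i => u (i, v)) (Finset.mem_univ j)
    linarith
  have hup : u (j, v) ≤ (r - 1 : ℝ) * (inner ℝ s (p v) - μ + 2 * C + 1) := by
    have h7 : ∑ i ∈ Finset.univ.erase j, -(inner ℝ s (p v) - μ + 2 * C + 1) ≤
        ∑ i ∈ Finset.univ.erase j, u (i, v) := Finset.sum_le_sum fun i _ => low i
    rw [Finset.sum_const, Finset.card_erase_of_mem (Finset.mem_univ j), Finset.card_univ,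
      Fintype.card_fin, nsmul_eq_mul, Nat.cast_sub (by omega), Nat.cast_one] at h7
    rw [hsplit]
    linarith
  have hr' : (2 : ℝ) ≤ r := by exact_mod_cast hr
  rw [abs_le]
  constructor
  · have := low j
    nlinarith
  · nlinarith

end Pool.Agent.Helper326_TP
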