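import Pool.Agent.Helper326_TP.Defs

set_option autoImplicit false

/-!
Bounded extension of corrections.
-/

namespace Pool.Agent.Helper326_TP



namespace J_extension

open Classical in
/-- the restriction to the pairs with second entry in `W` -/
noncomputable def T {r : ℕ} {ι : Type} [Fintype ι] (M0 : Submodule ℝ (X r ι)) (W : Set ι) : M0 →ₗ[ℝ] (Fin r × ι → ℝ) where
  toFun y := fun q => if q.2 ∈ W then (y : X r ι) q else 0
  map_add' y z := by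
    funext q
    by_cases h : q.2 ∈ W <;> simp [h]
  map_smul' c y := by
    funext q
    by_cases h : q.2 ∈ W <;> simp [h]

/-- the functions of `L` that vanish on `W` -/
def LW {r : ℕ} {ι : Type} [Fintype ι] (L : Submodule ℝ (X r ι)) (W : Set ι) : Submodule ℝ (X r ι) where
  carrier := {D | D ∈ L ∧ ∀ j, ∀ v ∈ W, D (j, v) = 0}
  add_mem' := by
    rintro a b ⟨ha, ha'⟩ ⟨hb, hb'⟩
    refine ⟨L.add_mem ha hb, fun j v hv => ?_⟩
    simp [ha' j v hv, hb' j v hv]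
  zero_mem' := ⟨L.zero_mem, fun _ _ _ => by simp⟩
  smul_mem' := by
    rintro c a ⟨ha, ha'⟩
    refine ⟨L.smul_mem c ha, fun j v hv => ?_⟩
    simp [ha' j v hv]

lemma one {r : ℕ} {ι : Type} [Fintype ι] (L : Submodule ℝ (X r ι)) (W : Set ι) :
    ∃ C : ℝ, 0 ≤ C ∧ ∀ u ∈ L, ∃ D ∈ L, (∀ j, ∀ v ∈ W, D (j, v) = 0) ∧
      (∀ D' ∈ L, (∀ j, ∀ v ∈ W, D' (j, v) = 0) → inner ℝ (u - D) D' = 0) ∧
      ∀ M : ℝ, 0 ≤ M → (∀ j, ∀ v ∈ W, |u (j, v)| ≤ M) → ∀ j v, |(u - D) (j, v)| ≤ C * M := by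
  classical
  set M0 : Submodule ℝ (X r ι) := L ⊓ (LW L W)ᗮ with hM0
  have hker : LinearMap.ker (T M0 W) = ⊥ := by
    rw [LinearMap.ker_eq_bot']
    rintro ⟨y, hy⟩ h
    rw [hM0, Submodule.mem_inf] at hy
    have h1 : y ∈ LW L W := by
      refine ⟨hy.1, fun j v hv => ?_⟩
      have := congrFun h (j, v)
      simpa [T, hv] using this
    have h2 : inner ℝ y y = 0 := (Submodule.mem_orthogonal _ _).1 hy.2 y h1
    have h3 : y = 0 := inner_self_eq_zero.1 h2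
    exact Subtype.ext h3
  obtain ⟨K, hK0, hK⟩ := (T M0 W).exists_antilipschitzWith hker
  refine ⟨K, K.2, fun u hu => ?_⟩
  set D : X r ι := ((LW L W).orthogonalProjectionOnto u : X r ι) with hD
  have hDm : D ∈ LW L W := ((LW L W).orthogonalProjectionOnto u).2
  have hDo : u - D ∈ (LW L W)ᗮ := (LW L W).sub_starProjection_mem_orthogonal u
  refine ⟨D, hDm.1, hDm.2, fun D' hD' hD'' => ?_, fun M hM hM' j v => ?_⟩
  · rw [real_inner_comm]
    exact (Submodule.mem_orthogonal _ _).1 hDo D' ⟨hD', hD''⟩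
  · have hy : u - D ∈ M0 := ⟨L.sub_mem hu hDm.1, hDo⟩
    have h1 : ‖(⟨u - D, hy⟩ : M0)‖ ≤ K * ‖T M0 W ⟨u - D, hy⟩‖ := by
      have := hK.le_mul_dist (⟨u - D, hy⟩ : M0) 0
      simpa using this
    have h2 : ‖T M0 W ⟨u - D, hy⟩‖ ≤ M := by
      rw [pi_norm_le_iff_of_nonneg hM]
      rintro ⟨j, v⟩
      by_cases hv : v ∈ W
      · have e : T M0 W ⟨u - D, hy⟩ (j, v) = u (j, v) := by
          simp [T, hv, hDm.2 j v hv]
        rw [e, Real.norm_eq_abs]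
        exact hM' j v hv
      · have e : T M0 W ⟨u - D, hy⟩ (j, v) = 0 := by
          simp [T, hv]
        rw [e, norm_zero]
        exact hM
    have h3 : |(u - D) (j, v)| ≤ ‖u - D‖ := by
      have := PiLp.norm_apply_le (u - D) (j, v)
      rwa [Real.norm_eq_abs] at this
    calc |(u - D) (j, v)| ≤ ‖u - D‖ := h3
      _ ≤ K * ‖T M0 W ⟨u - D, hy⟩‖ := h1
      _ ≤ K * M := mul_le_mul_of_nonneg_left h2 K.2

end J_extension

/-- TARGET -/
theorem extension {r : ℕ} {ι : Type} [Fintype ι] (L : Submodule ℝ (X r ι)) :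
    ∃ C : ℝ, 0 ≤ C ∧ ∀ (W : Set ι), ∀ u ∈ L, ∃ D ∈ L, (∀ j, ∀ v ∈ W, D (j, v) = 0) ∧
      (∀ D' ∈ L, (∀ j, ∀ v ∈ W, D' (j, v) = 0) → inner ℝ (u - D) D' = 0) ∧
      ∀ M : ℝ, 0 ≤ M → (∀ j, ∀ v ∈ W, |u (j, v)| ≤ M) → ∀ j v, |(u - D) (j, v)| ≤ C * M := by
  choose K hK0 hK using fun W : Set ι => J_extension.one L W
  obtain ⟨C, hC⟩ := Finite.exists_le K
  refine ⟨C, (hK0 ∅).trans (hC ∅), fun W u hu => ?_⟩
  obtain ⟨D, h1, h2, h3, h4⟩ := hK W u hu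
  exact ⟨D, h1, h2, h3, fun M hM hM' j v => (h4 M hM hM' j v).trans (mul_le_mul_of_nonneg_right (hC W) hM)⟩

end Pool.Agent.Helper326_TP
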