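import Pool.Agent.Helper326_TP.Defs

set_option autoImplicit false

/-!
An upper bound for the least value.
-/

namespace Pool.Agent.Helper326_TP



/-- TARGET -/
theorem upper {E : Type} [NormedAddCommGroup E] [InnerProductSpace ℝ E]
    {r : ℕ} (hr : 2 ≤ r) {ι : Type} [Fintype ι]
    (p : ι → E) (L : Submodule ℝ (X r ι)) (hL : ∀ u ∈ L, ∀ v, ∑ j, u (j, v) = 0) (H : Fin r → ι → ℝ)
    (C : ℝ) (hC : ∀ j v, |H j v| ≤ C) (u : X r ι) (hu : u ∈ L) (s : E) (v : ι) :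
    ∃ j, hv p H u s j v ≤ inner ℝ s (p v) + C := by
  have : Nonempty (Fin r) := ⟨⟨0, by omega⟩⟩
  have hsum : ∑ j : Fin r, hv p H u s j v ≤ ∑ _j : Fin r, (inner ℝ s (p v) + C) := by
    have h1 : ∑ j : Fin r, hv p H u s j v
        = ∑ j : Fin r, H j v + ∑ j : Fin r, u (j, v) + ∑ _j : Fin r, (inner ℝ s (p v) : ℝ) := by
      simp only [hv, Finset.sum_add_distrib]
    have h2 : ∑ j : Fin r, H j v ≤ ∑ _j : Fin r, C :=
      Finset.sum_le_sum fun j _ => (le_abs_self _).trans (hC j v)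
    rw [h1, hL u hu v, Finset.sum_add_distrib]
    linarith
  obtain ⟨j, -, hj⟩ := Finset.exists_le_of_sum_le (Finset.univ_nonempty) hsum
  exact ⟨j, hj⟩

end Pool.Agent.Helper326_TP
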