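import Pool.Agent.Helper326_TP.Defs
import Pool.Agent.Helper326_TP.Apriori
import Pool.Agent.Helper326_TP.Upper
import Pool.Agent.Helper326_TP.Extension

set_option autoImplicit false

/-!
Control of the near minimisers, by an argument on scales.
-/

namespace Pool.Agent.Helper326_TP




namespace J_boundary

theorem bound_H {r : ℕ} {ι : Type} [Fintype ι] (H : Fin r → ι → ℝ) :
    ∃ C : ℝ, 0 ≤ C ∧ ∀ j v, |H j v| ≤ C := by
  refine ⟨∑ j, ∑ v, |H j v|, Finset.sum_nonneg fun j _ => Finset.sum_nonneg fun v _ => abs_nonneg _, ?_⟩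
  intro j v
  calc |H j v| ≤ ∑ v, |H j v| :=
        Finset.single_le_sum (f := fun v => |H j v|) (fun v _ => abs_nonneg _) (Finset.mem_univ v)
    _ ≤ ∑ j, ∑ v, |H j v| :=
        Finset.single_le_sum (f := fun j => ∑ v, |H j v|)
          (fun j _ => Finset.sum_nonneg fun v _ => abs_nonneg _) (Finset.mem_univ j)

/-- a chain of sets that increases with `k` is stationary at some `k` below the number of points -/
theorem stationary {ι : Type} [Fintype ι] (f : ι → ℝ) (K : ℕ → ℝ) (hK : Monotone K)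
    (v0 : ι) (hv0 : f v0 ≤ K 0) :
    ∃ k, k < Fintype.card ι ∧ ∀ v, f v ≤ K (k + 1) → f v ≤ K k := by
  classical
  by_contra hcon
  push Not at hcon
  have hcard : ∀ k, k ≤ Fintype.card ι → k + 1 ≤ (Finset.univ.filter fun v => f v ≤ K k).card := by
    intro k
    induction k with
    | zero =>
      intro _
      have : v0 ∈ Finset.univ.filter fun v => f v ≤ K 0 := by simp [hv0]
      exact Finset.card_pos.mpr ⟨v0, this⟩
    | succ k ih =>
      intro hk
      have h1 := ih (by omega)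
      obtain ⟨v, hv1, hv2⟩ := hcon k (by omega)
      have h2 : (Finset.univ.filter fun v => f v ≤ K k) ⊂ (Finset.univ.filter fun v => f v ≤ K (k + 1)) := by
        rw [Finset.ssubset_iff_of_subset]
        · refine ⟨v, by simp [hv1], by simp [hv2]⟩
        · intro x hx
          simp only [Finset.mem_filter, Finset.mem_univ, true_and] at hx ⊢
          exact hx.trans (hK (Nat.le_succ k))
      have := Finset.card_lt_card h2
      omega
  have h1 := hcard (Fintype.card ι) le_rfl
  have h2 := Finset.card_le_univ (Finset.univ.filter fun v => f v ≤ K (Fintype.card ι))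
  omega

end J_boundary

/-- TARGET -/
theorem boundary {E : Type} [NormedAddCommGroup E] [InnerProductSpace ℝ E]
    {r : ℕ} (hr : 2 ≤ r) {ι : Type} [Fintype ι] [Nonempty ι]
    (p : ι → E) (L : Submodule ℝ (X r ι)) (hL : ∀ u ∈ L, ∀ v, ∑ j, u (j, v) = 0) (H : Fin r → ι → ℝ) :
    ∃ K : ℝ, 0 ≤ K ∧ ∀ (o : E) (R ε δ : ℝ) (u : X r ι) (s : E) (w : Fin r × ι → ℝ)
      (t : Fin r × Fin r × ι → ℝ) (κ : ℝ), 0 < ε → δ ≤ 1 → Sol p L H o R ε δ u s w t κ →
      ∀ j v, (∀ j' v', hv p H u s j v ≤ hv p H u s j' v' + 1) → ∀ v', inner ℝ s (p v) ≤ inner ℝ s (p v') + K := by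
  obtain ⟨C, hC0, hC⟩ := J_boundary.bound_H H
  obtain ⟨C1, hC1, hext⟩ := extension L
  let K : ℕ → ℝ := fun k => Nat.rec 0 (fun _ x => x + 2 * C + 1 + C1 * (r * (x + 2 * C + 1))) k
  have hKs : ∀ k, K (k + 1) = K k + 2 * C + 1 + C1 * (r * (K k + 2 * C + 1)) := fun k => rfl
  have hK0 : K 0 = 0 := rfl
  have hKn : ∀ k, 0 ≤ K k := by
    intro k
    induction k with
    | zero => rw [hK0]
    | succ k ih => rw [hKs]; positivity
  have hKm : Monotone K := by
    apply monotone_nat_of_le_succ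
    intro k
    rw [hKs]
    have h1 := hKn k
    have h2 : 0 ≤ C1 * (r * (K k + 2 * C + 1)) := by positivity
    linarith
  clear_value K
  refine ⟨K (Fintype.card ι), hKn _, ?_⟩
  intro o R ε δ u s w t κ hε hδ hS j v hact v'
  obtain ⟨v0, hv0⟩ := Finite.exists_min (fun v => inner ℝ s (p v))
  set μ : ℝ := inner ℝ s (p v0) with hμ
  obtain ⟨k, hk, hstat⟩ := J_boundary.stationary (fun v => inner ℝ s (p v) - μ) K hKm v0 (by
    simp [hK0, hμ])
  obtain ⟨D, hDL, hD0, hDorth, hDbd⟩ := hext {v | inner ℝ s (p v) - μ ≤ K k} u hS.hu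
  set M : ℝ := r * (K k + 2 * C + 1) with hM
  have hM0 : 0 ≤ M := by
    have := hKn k
    rw [hM]; positivity
  have hub : ∀ j, ∀ v ∈ {v | inner ℝ s (p v) - μ ≤ K k}, |u (j, v)| ≤ M := by
    intro j v hv
    have h1 := apriori hr p L hL H C hC o R ε δ hε hδ u s w t κ hS μ hv0 j v
    refine h1.trans ?_
    rw [hM]
    apply mul_le_mul_of_nonneg_left _ (Nat.cast_nonneg r)
    have h2 : inner ℝ s (p v) - μ ≤ K k := hv
    linarith
  have hbd := hDbd M hM0 hub
  obtain ⟨j0, hj0⟩ := upper hr p L hL H C hC u hS.hu s v0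
  have key : ∀ j v, (∀ j' v', hv p H u s j v ≤ hv p H u s j' v' + 1) →
      ¬ (inner ℝ s (p v) - μ ≤ K k) → D (j, v) < 0 := by
    intro j v ha hnv
    have h1 : ¬ (inner ℝ s (p v) - μ ≤ K (k + 1)) := fun h => hnv (hstat v h)
    push Not at h1
    rw [hKs, ← hM] at h1
    have h2 := ha j0 v0
    have h3 := hbd j v
    have h4 : (u - D) (j, v) = u (j, v) - D (j, v) := rfl
    rw [h4] at h3
    have h5 := (abs_le.mp h3).1
    have h6 := (abs_le.mp (hC j v)).1
    have h7 := hKn k
    unfold hv at h2 hj0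
    have h8 : C1 * M = C1 * M := rfl
    linarith
  have hle : 2 * ε * inner ℝ u D ≤ 0 := by
    rw [hS.stat D hDL]
    apply Finset.sum_nonpos
    intro q _
    obtain ⟨j, v⟩ := q
    by_cases hw : w (j, v) = 0
    · rw [hw, zero_mul]
    · by_cases hvW : inner ℝ s (p v) - μ ≤ K k
      · rw [hD0 j v hvW, mul_zero]
      · have h1 := key j v (fun j' v' => (hS.wsupp j v hw j' v').trans (by linarith)) hvW
        exact mul_nonpos_of_nonneg_of_nonpos (hS.w0 _) h1.le
  have hin : inner ℝ u D = inner ℝ D D := by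
    have h1 := hDorth D hDL hD0
    rw [inner_sub_left] at h1
    linarith
  have hDD : inner ℝ D D ≤ 0 := by
    rw [hin] at hle
    by_contra hc
    push Not at hc
    have : 0 < 2 * ε * inner ℝ D D := by positivity
    linarith
  have hDz : D = 0 := by
    have h1 : ‖D‖ ^ 2 ≤ 0 := by
      rw [← real_inner_self_eq_norm_sq]; exact hDD
    have h2 : ‖D‖ = 0 := by
      have h3 : ‖D‖ ^ 2 = 0 := le_antisymm h1 (sq_nonneg _)
      exact pow_eq_zero_iff (two_ne_zero) |>.mp h3
    exact norm_eq_zero.mp h2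
  have hvW : inner ℝ s (p v) - μ ≤ K k := by
    by_contra hc
    have h1 := key j v hact hc
    rw [hDz] at h1
    exact lt_irrefl _ h1
  have h1 := hKm hk.le
  have h2 := hv0 v'
  linarith

end Pool.Agent.Helper326_TP
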