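import Pool.Agent.Helper326_TP.Defs
import Pool.Agent.Helper326_TP.Apriori

set_option autoImplicit false

/-!
The corrections stay bounded.
-/

namespace Pool.Agent.Helper326_TP



/-- TARGET -/
theorem bounded {E : Type} [NormedAddCommGroup E] [InnerProductSpace ℝ E]
    {r : ℕ} (hr : 2 ≤ r) {ι : Type} [Fintype ι] [Nonempty ι]
    (p : ι → E) (L : Submodule ℝ (X r ι)) (hL : ∀ u ∈ L, ∀ v, ∑ j, u (j, v) = 0) (H : Fin r → ι → ℝ) (R : ℝ) :
    ∃ A : ℝ, ∀ (o : E) (ε δ : ℝ) (u : X r ι) (s : E) (w : Fin r × ι → ℝ)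
      (t : Fin r × Fin r × ι → ℝ) (κ : ℝ), 0 < ε → δ ≤ 1 → Sol p L H o R ε δ u s w t κ → ‖u‖ ≤ A := by
  classical
  set C : ℝ := ∑ q : Fin r × ι, |H q.1 q.2| with hCdef
  set B : ℝ := ∑ v, ‖p v‖ with hBdef
  have hC : ∀ j v, |H j v| ≤ C := fun j v =>
    Finset.single_le_sum (f := fun q : Fin r × ι => |H q.1 q.2|) (fun q _ => abs_nonneg _)
      (Finset.mem_univ (j, v))
  have hB : ∀ v, ‖p v‖ ≤ B := fun v =>
    Finset.single_le_sum (f := fun v => ‖p v‖) (fun q _ => norm_nonneg _) (Finset.mem_univ v)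
  set M : ℝ := r * (|R| * B - (-(|R| * B)) + 2 * C + 1) with hM
  refine ⟨Real.sqrt (∑ _q : Fin r × ι, M ^ 2), fun o ε δ u s w t κ hε hδ hS => ?_⟩
  have hin : ∀ v, |inner ℝ s (p v)| ≤ |R| * B := fun v => by
    refine (abs_real_inner_le_norm s (p v)).trans ?_
    exact mul_le_mul (hS.hs.trans (le_abs_self R)) (hB v) (norm_nonneg _) (abs_nonneg _)
  have hr0 : (0 : ℝ) ≤ r := Nat.cast_nonneg r
  have hu : ∀ q, |u q| ≤ M := fun q => by
    obtain ⟨j, v⟩ := q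
    have h1 := apriori hr p L hL H C hC o R ε δ hε hδ u s w t κ hS (-(|R| * B))
      (fun v => (abs_le.1 (hin v)).1) j v
    refine h1.trans ?_
    rw [hM]
    refine mul_le_mul_of_nonneg_left ?_ hr0
    have h2 := (abs_le.1 (hin v)).2
    linarith
  rw [EuclideanSpace.norm_eq]
  refine Real.sqrt_le_sqrt (Finset.sum_le_sum fun q _ => ?_)
  rw [Real.norm_eq_abs]
  exact pow_le_pow_left₀ (abs_nonneg _) (hu q) 2

end Pool.Agent.Helper326_TP
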