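import Pool.Agent.Helper326_TP.Defs
import Pool.Agent.Helper31.GZ.Brouwer

set_option autoImplicit false

/-!
The fixed point theorem of Brouwer, in the form used here.
-/

namespace Pool.Agent.Helper326_TP

theorem brouwer_fix {E : Type} [NormedAddCommGroup E] [NormedSpace ℝ E] [FiniteDimensional ℝ E]
    (f : E → E) (hf : Continuous f) (R : ℝ) (hR : ∀ x, ‖f x‖ ≤ R) : ∃ x, f x = x :=
  Pool.Agent.Helper31.GZ.Brouwer.brouwer f hf R hR

end Pool.Agent.Helper326_TP
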