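import Pool.Agent.Helper326_TP.Defs

set_option autoImplicit false

/-!
Generic heights.
-/

namespace Pool.Agent.Helper326_TP



namespace J_generic_height

/-- the map `u ↦ (k ↦ u (i k, v k) - u (j k, v k))` on `L` -/
noncomputable def TL {r m : ℕ} {ι : Type} [Fintype ι] (L : Submodule ℝ (X r ι))
    (v : Fin (m + 1) → ι) (i j : Fin (m + 1) → Fin r) : L →ₗ[ℝ] (Fin (m + 1) → ℝ) where
  toFun u k := (u : X r ι) (i k, v k) - (u : X r ι) (j k, v k)
  map_add' u u' := by
    funext k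
    simp only [Submodule.coe_add, PiLp.add_apply, Pi.add_apply]
    ring
  map_smul' c u := by
    funext k
    simp only [Submodule.coe_smul, PiLp.smul_apply, Pi.smul_apply, smul_eq_mul, RingHom.id_apply]
    ring

/-- the map `a ↦ (k ↦ a (i k) (p (v k)) - a (j k) (p (v k)))` -/
noncomputable def TA {E : Type} [NormedAddCommGroup E] [InnerProductSpace ℝ E] {r m : ℕ} {ι : Type}
    (p : ι → E) (v : Fin (m + 1) → ι) (i j : Fin (m + 1) → Fin r) :
    (Fin r → (E →ᵃ[ℝ] ℝ)) →ₗ[ℝ] (Fin (m + 1) → ℝ) where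
  toFun a k := a (i k) (p (v k)) - a (j k) (p (v k))
  map_add' a a' := by
    funext k
    simp only [Pi.add_apply, AffineMap.coe_add]
    ring
  map_smul' c a := by
    funext k
    simp only [Pi.smul_apply, AffineMap.coe_smul, smul_eq_mul, RingHom.id_apply]
    ring

theorem exists_ker {E : Type} [NormedAddCommGroup E] [InnerProductSpace ℝ E]
    [FiniteDimensional ℝ E] {r m : ℕ} {ι : Type} [Fintype ι] (p : ι → E)
    (L : Submodule ℝ (X r ι)) (hm : Module.finrank ℝ E = m) (hdim : Module.finrank ℝ L ≤ m)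
    (v : Fin (m + 1) → ι) (i j : Fin (m + 1) → Fin r) (hind : AffineIndependent ℝ (p ∘ v))
    (hne : ∀ k, i k ≠ j k) :
    ∃ f : (Fin (m + 1) → ℝ) →ₗ[ℝ] ℝ, (∀ u, f (TL L v i j u) = 0) ∧
      ∃ a, f (TA p v i j a) ≠ 0 := by
  have hlt : LinearMap.range (TL L v i j) < ⊤ := by
    rw [lt_top_iff_ne_top]
    intro h
    have h1 : Module.finrank ℝ (LinearMap.range (TL L v i j)) ≤ Module.finrank ℝ L :=
      LinearMap.finrank_range_le _
    rw [h, finrank_top, Module.finrank_fin_fun] at h1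
    omega
  obtain ⟨f, hf0, hf⟩ := Submodule.exists_le_ker_of_lt_top _ hlt
  refine ⟨f, fun u => hf ⟨u, rfl⟩, ?_⟩
  -- a coordinate at which `f` does not vanish
  obtain ⟨k, hk⟩ : ∃ k, f (Pi.single k 1) ≠ 0 := by
    by_contra hcon
    push Not at hcon
    apply hf0
    apply LinearMap.pi_ext'
    intro k
    ext
    simpa using hcon k
  -- affine coordinates
  have htop : affineSpan ℝ (Set.range (p ∘ v)) = ⊤ := by
    rw [hind.affineSpan_eq_top_iff_card_eq_finrank_add_one, Fintype.card_fin, hm]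
  let b : AffineBasis (Fin (m + 1)) ℝ E := ⟨p ∘ v, hind, htop⟩
  refine ⟨Pi.single (i k) (b.coord k), ?_⟩
  have h2 : TA p v i j (Pi.single (i k) (b.coord k)) = Pi.single k 1 := by
    funext l
    show (Pi.single (i k) (b.coord k) : Fin r → (E →ᵃ[ℝ] ℝ)) (i l) (p (v l)) -
      (Pi.single (i k) (b.coord k) : Fin r → (E →ᵃ[ℝ] ℝ)) (j l) (p (v l)) = _
    by_cases hkl : l = k
    · subst hkl
      rw [Pi.single_eq_same, Pi.single_eq_same, Pi.single_eq_of_ne (hne l).symm]
      have h3 : b.coord l (p (v l)) = 1 := b.coord_apply_eq l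
      rw [h3, AffineMap.coe_zero, Pi.zero_apply, sub_zero]
    · rw [Pi.single_eq_of_ne hkl]
      have h3 : b.coord k (p (v l)) = 0 := b.coord_apply_ne (Ne.symm hkl)
      have h4 : ∀ q, (Pi.single (i k) (b.coord k) : Fin r → (E →ᵃ[ℝ] ℝ)) q (p (v l)) = 0 := by
        intro q
        by_cases hq : q = i k
        · subst hq
          rw [Pi.single_eq_same, h3]
        · rw [Pi.single_eq_of_ne hq, AffineMap.coe_zero, Pi.zero_apply]
      rw [h4, h4, sub_zero]
  rw [h2]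
  exact hk

end J_generic_height

/-- TARGET -/
theorem generic_height {E : Type} [NormedAddCommGroup E] [InnerProductSpace ℝ E] [FiniteDimensional ℝ E]
    {r : ℕ} {ι : Type} [Fintype ι] (p : ι → E) (L : Submodule ℝ (X r ι))
    (hdim : Module.finrank ℝ L ≤ Module.finrank ℝ E) :
    ∃ a : Fin r → (E →ᵃ[ℝ] ℝ), ∀ u ∈ L, ∀ S : Set ι, affineSpan ℝ (p '' S) = ⊤ →
      ∃ v ∈ S, ∀ i j, i ≠ j → a i (p v) + u (i, v) ≠ a j (p v) + u (j, v) := by
  classical
  obtain ⟨m, hm⟩ : ∃ m, Module.finrank ℝ E = m := ⟨_, rfl⟩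
  rw [hm] at hdim
  let Z := {z : (Fin (m + 1) → ι) × (Fin (m + 1) → Fin r) × (Fin (m + 1) → Fin r) //
    AffineIndependent ℝ (p ∘ z.1) ∧ ∀ k, z.2.1 k ≠ z.2.2 k}
  have hex : ∀ z : Z, ∃ f : (Fin (m + 1) → ℝ) →ₗ[ℝ] ℝ,
      (∀ u, f (J_generic_height.TL L z.1.1 z.1.2.1 z.1.2.2 u) = 0) ∧
        ∃ a, f (J_generic_height.TA p z.1.1 z.1.2.1 z.1.2.2 a) ≠ 0 := fun z =>
    J_generic_height.exists_ker p L hm hdim _ _ _ z.2.1 z.2.2
  choose f hfL hfA using hex
  let Bz : Z → Submodule ℝ (Fin r → (E →ᵃ[ℝ] ℝ)) := fun z =>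
    LinearMap.ker ((f z) ∘ₗ (J_generic_height.TA p z.1.1 z.1.2.1 z.1.2.2))
  have hcov : ⋃ z, (Bz z : Set (Fin r → (E →ᵃ[ℝ] ℝ))) ≠ Set.univ := by
    intro h
    obtain ⟨z, hz⟩ := Subspace.exists_eq_top_of_iUnion_eq_univ h
    obtain ⟨a, ha⟩ := hfA z
    apply ha
    have h1 : a ∈ Bz z := by rw [hz]; trivial
    exact h1
  obtain ⟨a, ha⟩ := (Set.ne_univ_iff_exists_notMem _).1 hcov
  refine ⟨a, fun u hu S hS => ?_⟩
  by_contra hcon
  push Not at hcon
  obtain ⟨t, htS, hts, hti⟩ := exists_affineIndependent ℝ E (p '' S)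
  rw [hS] at hts
  have htfin : Finite t := (Set.toFinite (p '' S)).subset htS
  have : Fintype t := Fintype.ofFinite t
  have hcard : Fintype.card t = m + 1 := by
    have h1 : affineSpan ℝ (Set.range ((↑) : t → E)) = ⊤ := by rw [Subtype.range_coe, hts]
    rw [hti.affineSpan_eq_top_iff_card_eq_finrank_add_one, hm] at h1
    exact h1
  let e : Fin (m + 1) ≃ t := (Fintype.equivFinOfCardEq hcard).symm
  have hv : ∀ k, ∃ v ∈ S, p v = (e k : E) := fun k => htS (e k).2
  choose v hvS hvp using hv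
  have hij : ∀ k, ∃ i j, i ≠ j ∧ a i (p (v k)) + u (i, v k) = a j (p (v k)) + u (j, v k) :=
    fun k => hcon (v k) (hvS k)
  choose i j hne heq using hij
  have hind : AffineIndependent ℝ (p ∘ v) := by
    have h1 : p ∘ v = ((↑) : t → E) ∘ e := by
      funext k
      exact hvp k
    rw [h1]
    exact hti.comp_embedding e.toEmbedding
  let z : Z := ⟨(v, i, j), hind, hne⟩
  apply ha
  rw [Set.mem_iUnion]
  refine ⟨z, ?_⟩
  show f z (J_generic_height.TA p v i j a) = 0
  have h1 : J_generic_height.TA p v i j a = - J_generic_height.TL L v i j ⟨u, hu⟩ := by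
    funext k
    show a (i k) (p (v k)) - a (j k) (p (v k)) = -(u (i k, v k) - u (j k, v k))
    linear_combination heq k
  rw [h1, map_neg, hfL z ⟨u, hu⟩, neg_zero]

end Pool.Agent.Helper326_TP
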