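import Pool.Agent.Helper326_TP.Defs

set_option autoImplicit false

/-!
A generic interior point.
-/

namespace Pool.Agent.Helper326_TP



/-- TARGET -/
theorem generic_point {E : Type} [NormedAddCommGroup E] [InnerProductSpace ℝ E] [FiniteDimensional ℝ E]
    {ι : Type} [Fintype ι] [Nonempty ι] (p : ι → E) (hp : affineSpan ℝ (Set.range p) = ⊤) :
    ∃ (o : E) (c : ℝ), 0 < c ∧ (∀ s : E, ∃ v, inner ℝ s (p v) ≤ inner ℝ s o - c * ‖s‖) ∧
      ∀ t : ι → ℝ, (∀ v, 0 ≤ t v) → ∑ v, t v = 1 → ∑ v, t v • p v = o →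
        affineSpan ℝ (p '' {v | t v ≠ 0}) = ⊤ := by
  classical
  letI : MeasurableSpace E := borel E
  haveI : BorelSpace E := ⟨rfl⟩
  have hint : (interior (convexHull ℝ (Set.range p))).Nonempty :=
    interior_convexHull_nonempty_iff_affineSpan_eq_top.2 hp
  have hpos : 0 < (MeasureTheory.Measure.addHaar : MeasureTheory.Measure E)
      (interior (convexHull ℝ (Set.range p))) := isOpen_interior.measure_pos _ hint
  have hnull : (MeasureTheory.Measure.addHaar : MeasureTheory.Measure E)
      (⋃ S ∈ {S : Set ι | affineSpan ℝ (p '' S) ≠ ⊤}, (affineSpan ℝ (p '' S) : Set E)) = 0 := by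
    rw [MeasureTheory.measure_biUnion_null_iff (Set.to_countable _)]
    intro S hS
    exact MeasureTheory.Measure.addHaar_affineSubspace _ _ hS
  obtain ⟨o, ho, hoN⟩ : ∃ o ∈ interior (convexHull ℝ (Set.range p)),
      o ∉ ⋃ S ∈ {S : Set ι | affineSpan ℝ (p '' S) ≠ ⊤}, (affineSpan ℝ (p '' S) : Set E) := by
    by_contra hcon
    push Not at hcon
    have h1 := MeasureTheory.measure_mono (μ := (MeasureTheory.Measure.addHaar : MeasureTheory.Measure E))
      (s := interior (convexHull ℝ (Set.range p)))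
      (t := ⋃ S ∈ {S : Set ι | affineSpan ℝ (p '' S) ≠ ⊤}, (affineSpan ℝ (p '' S) : Set E)) hcon
    rw [hnull] at h1
    exact absurd hpos (not_lt.2 h1)
  obtain ⟨c, hc, hcb⟩ := Metric.nhds_basis_closedBall.mem_iff.1 (mem_interior_iff_mem_nhds.1 ho)
  refine ⟨o, c, hc, fun s => ?_, fun t ht0 ht1 hto => ?_⟩
  · by_cases hs : s = 0
    · subst hs
      exact ⟨Classical.arbitrary ι, by simp⟩
    · have hs0 : 0 < ‖s‖ := norm_pos_iff.2 hs
      by_contra hcon
      push Not at hcon
      have hy : o - (c / ‖s‖) • s ∈ convexHull ℝ (Set.range p) := by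
        apply hcb
        rw [Metric.mem_closedBall, dist_eq_norm, sub_sub_cancel_left, norm_neg, norm_smul,
          Real.norm_of_nonneg (by positivity)]
        rw [div_mul_cancel₀ _ hs0.ne']
      have hconv : Convex ℝ {x : E | inner ℝ s o - c * ‖s‖ < inner ℝ s x} :=
        convex_halfSpace_gt (f := fun x : E => inner ℝ s x)
          ⟨fun x y => inner_add_right _ _ _, fun a x => by rw [inner_smul_right, smul_eq_mul]⟩ _
      have hsub : convexHull ℝ (Set.range p) ⊆ {x : E | inner ℝ s o - c * ‖s‖ < inner ℝ s x} := by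
        apply convexHull_min _ hconv
        rintro _ ⟨v, rfl⟩
        exact hcon v
      have h2 := hsub hy
      simp only [Set.mem_setOf_eq] at h2
      rw [inner_sub_right, inner_smul_right, real_inner_self_eq_norm_sq] at h2
      have h3 : c / ‖s‖ * ‖s‖ ^ 2 = c * ‖s‖ := by
        field_simp
      rw [h3] at h2
      exact lt_irrefl _ h2
  · by_contra hne
    apply hoN
    rw [Set.mem_iUnion₂]
    refine ⟨{v | t v ≠ 0}, hne, ?_⟩
    apply convexHull_subset_affineSpan
    have h1 : ∑ v ∈ Finset.univ.filter (fun v => t v ≠ 0), t v • p v = o := by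
      rw [← hto]
      apply Finset.sum_filter_of_ne
      intro v _ hv h0
      apply hv
      rw [h0, zero_smul]
    have h2 : ∑ v ∈ Finset.univ.filter (fun v => t v ≠ 0), t v = 1 := by
      rw [← ht1]
      apply Finset.sum_filter_of_ne
      intro v _ hv
      exact hv
    rw [← h1]
    apply (convex_convexHull ℝ _).sum_mem (fun v _ => ht0 v) h2
    intro v hv
    apply subset_convexHull
    exact ⟨v, (Finset.mem_filter.1 hv).2, rfl⟩

end Pool.Agent.Helper326_TP
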