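import Pool.Agent.Helper326_TP.Defs

set_option autoImplicit false

/-!
The space of the corrections.
-/

namespace Pool.Agent.Helper326_TP



namespace J_space

/-- coefficients with sum zero -/
noncomputable def ex (n m : ℕ) : (Fin n → Fin m → ℝ) →ₗ[ℝ] (Fin (n + 1) → Fin m → ℝ) where
  toFun c := Fin.snoc (α := fun _ => Fin m → ℝ) c (-∑ j, c j)
  map_add' a b := by
    funext i
    refine Fin.lastCases ?_ (fun i => ?_) i
    · simp only [Fin.snoc_last, Pi.add_apply, Finset.sum_add_distrib, neg_add]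
    · simp only [Fin.snoc_castSucc, Pi.add_apply]
  map_smul' x a := by
    funext i
    refine Fin.lastCases ?_ (fun i => ?_) i
    · simp only [Fin.snoc_last, Pi.smul_apply, RingHom.id_apply, ← Finset.smul_sum, smul_neg]
    · simp only [Fin.snoc_castSucc, Pi.smul_apply, RingHom.id_apply]

theorem ex_cast {n m : ℕ} (c : Fin n → Fin m → ℝ) (i : Fin n) : ex n m c i.castSucc = c i :=
  Fin.snoc_castSucc (α := fun _ => Fin m → ℝ) _ _ _

theorem ex_last {n m : ℕ} (c : Fin n → Fin m → ℝ) : ex n m c (Fin.last n) = -∑ j, c j :=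
  Fin.snoc_last (α := fun _ => Fin m → ℝ) _ _

/-- the functions with given coefficients -/
noncomputable def ev {r m : ℕ} {ι : Type} [Fintype ι] (φ : Fin m → ι → ℝ) :
    (Fin r → Fin m → ℝ) →ₗ[ℝ] X r ι where
  toFun c := WithLp.toLp 2 (fun q : Fin r × ι => ∑ k, c q.1 k * φ k q.2)
  map_add' a b := by
    ext q
    simp only [Pi.add_apply, add_mul, Finset.sum_add_distrib, PiLp.add_apply]
  map_smul' x a := by
    ext q
    simp only [Pi.smul_apply, smul_eq_mul, RingHom.id_apply, PiLp.smul_apply, Finset.mul_sum,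
      mul_assoc]

theorem ev_apply {r m : ℕ} {ι : Type} [Fintype ι] (φ : Fin m → ι → ℝ) (c : Fin r → Fin m → ℝ)
    (q : Fin r × ι) : ev φ c q = ∑ k, c q.1 k * φ k q.2 := rfl

theorem pairing {r m : ℕ} {ι : Type} [Fintype ι] (φ : Fin m → ι → ℝ) (c : Fin r → Fin m → ℝ)
    (w : Fin r × ι → ℝ) :
    ∑ q, w q * ev φ c q = ∑ j, ∑ k, c j k * ∑ v, w (j, v) * φ k v := by
  rw [Fintype.sum_prod_type]
  refine Finset.sum_congr rfl fun j _ => ?_
  simp only [ev_apply, Finset.mul_sum]
  rw [Finset.sum_comm]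
  refine Finset.sum_congr rfl fun k _ => Finset.sum_congr rfl fun v _ => ?_
  ring

end J_space

/-- TARGET -/
theorem space {r : ℕ} (hr : 2 ≤ r) {ι : Type} [Fintype ι] {d : ℕ} (φ : Fin (d + 1) → ι → ℝ) :
    ∃ L : Submodule ℝ (X r ι), Module.finrank ℝ L ≤ (d + 1) * (r - 1) ∧
      (∀ u ∈ L, ∀ v, ∑ j, u (j, v) = 0) ∧
      (∀ u ∈ L, ∀ j, ∃ c : Fin (d + 1) → ℝ, ∀ v, u (j, v) = ∑ k, c k * φ k v) ∧
      ∀ w : Fin r × ι → ℝ, (∀ D ∈ L, ∑ q, w q * D q = 0) →
        ∀ i j k, ∑ v, w (i, v) * φ k v = ∑ v, w (j, v) * φ k v := by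
  obtain ⟨n, rfl⟩ : ∃ n, r = n + 1 := ⟨r - 1, by omega⟩
  refine ⟨LinearMap.range ((J_space.ev φ).comp (J_space.ex n (d + 1))), ?_, ?_, ?_, ?_⟩
  · refine (LinearMap.finrank_range_le _).trans ?_
    rw [Module.finrank_pi_fintype]
    simp [mul_comm]
  · rintro _ ⟨c, rfl⟩ v
    simp only [LinearMap.comp_apply, J_space.ev_apply]
    rw [Finset.sum_comm]
    refine Finset.sum_eq_zero fun k _ => ?_
    rw [← Finset.sum_mul, Fin.sum_univ_castSucc]
    simp only [J_space.ex_cast, J_space.ex_last, Pi.neg_apply, Finset.sum_apply, add_neg_cancel,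
      zero_mul]
  · rintro _ ⟨c, rfl⟩ j
    exact ⟨J_space.ex n (d + 1) c j, fun v => rfl⟩
  · intro w hw
    have key : ∀ (i : Fin (n + 1)) (k : Fin (d + 1)),
        ∑ v, w (i, v) * φ k v = ∑ v, w (Fin.last n, v) * φ k v := by
      intro i k
      refine Fin.lastCases rfl (fun i => ?_) i
      have h := hw _ ⟨Pi.single i (Pi.single k (1 : ℝ)), rfl⟩
      rw [LinearMap.comp_apply, J_space.pairing, Fin.sum_univ_castSucc] at h
      simp only [J_space.ex_cast, J_space.ex_last, Pi.neg_apply, Finset.sum_apply, neg_mul,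
        Finset.sum_neg_distrib] at h
      have h1 : ∀ g : Fin (n + 1) → Fin (d + 1) → ℝ,
          ∑ x : Fin n, ∑ y, (Pi.single i (Pi.single k (1 : ℝ)) : Fin n → Fin (d + 1) → ℝ) x y *
            g x.castSucc y = g i.castSucc k := by
        intro g
        rw [Finset.sum_eq_single i, Finset.sum_eq_single k]
        · simp
        · intro y _ hy; simp [hy]
        · intro hk; exact absurd (Finset.mem_univ _) hk
        · intro x _ hx; simp [hx]
        · intro hx; exact absurd (Finset.mem_univ _) hx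
      have h2 : ∀ y : Fin (d + 1),
          ∑ x : Fin n, (Pi.single i (Pi.single k (1 : ℝ)) : Fin n → Fin (d + 1) → ℝ) x y =
            (Pi.single k (1 : ℝ) : Fin (d + 1) → ℝ) y := by
        intro y
        rw [Finset.sum_eq_single i]
        · simp
        · intro x _ hx; simp [hx]
        · intro hx; exact absurd (Finset.mem_univ _) hx
      have h3 := h1 (fun j k => ∑ v, w (j, v) * φ k v)
      rw [h3] at h
      simp only [h2] at h
      rw [Finset.sum_eq_single k (fun y _ hy => by simp [hy])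
        (fun hk => absurd (Finset.mem_univ _) hk), Pi.single_eq_same, one_mul] at h
      linarith
    intro i j k
    rw [key i k, key j k]

end Pool.Agent.Helper326_TP
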