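import Pool.Agent.Helper326_TP.Defs

set_option autoImplicit false

/-!
The limit of the approximate solutions.
-/

namespace Pool.Agent.Helper326_TP



namespace J_limit

open Filter Topology

section
variable {E : Type} [NormedAddCommGroup E] [InnerProductSpace ℝ E]
    {r : ℕ} {ι : Type} [Fintype ι] {p : ι → E} {L : Submodule ℝ (X r ι)} {H : Fin r → ι → ℝ} {o : E}
    {R ε δ : ℝ} {u : X r ι} {s : E} {w : Fin r × ι → ℝ} {t : Fin r × Fin r × ι → ℝ} {κ : ℝ}

theorem w_le (h : Sol p L H o R ε δ u s w t κ) (q : Fin r × ι) : w q ≤ 1 := by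
  rw [← h.w1]
  exact Finset.single_le_sum (fun i _ => h.w0 i) (Finset.mem_univ q)

theorem t_le (h : Sol p L H o R ε δ u s w t κ) (q : Fin r × Fin r × ι) : t q ≤ 1 := by
  rw [← h.t1]
  exact Finset.single_le_sum (fun i _ => h.t0 i) (Finset.mem_univ q)

theorem kap_le (hR : 0 < R) (h : Sol p L H o R ε δ u s w t κ) : κ ≤ (∑ v, ‖p v‖ + ‖o‖) / R := by
  have hM : ∀ v, ‖p v‖ ≤ ∑ v, ‖p v‖ := fun v =>
    Finset.single_le_sum (f := fun v => ‖p v‖) (fun i _ => norm_nonneg _) (Finset.mem_univ v)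
  rcases h.k1 with h0 | h1
  · rw [h0]
    apply div_nonneg _ hR.le
    have : 0 ≤ ∑ v, ‖p v‖ := Finset.sum_nonneg fun i _ => norm_nonneg _
    positivity
  · rw [le_div_iff₀ hR]
    calc κ * R = ‖κ • s‖ := by rw [norm_smul, h1, Real.norm_of_nonneg h.k0]
      _ = ‖∑ q : Fin r × Fin r × ι, t q • p q.2.2 - o‖ := by rw [h.kap]
      _ ≤ ‖∑ q : Fin r × Fin r × ι, t q • p q.2.2‖ + ‖o‖ := norm_sub_le _ _
      _ ≤ ∑ v, ‖p v‖ + ‖o‖ := by
          gcongr
          calc ‖∑ q : Fin r × Fin r × ι, t q • p q.2.2‖ ≤ ∑ q : Fin r × Fin r × ι, ‖t q • p q.2.2‖ :=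
                norm_sum_le _ _
            _ ≤ ∑ q : Fin r × Fin r × ι, t q * ∑ v, ‖p v‖ := by
                refine Finset.sum_le_sum fun q _ => ?_
                rw [norm_smul, Real.norm_of_nonneg (h.t0 q)]
                exact mul_le_mul_of_nonneg_left (hM _) (h.t0 q)
            _ = ∑ v, ‖p v‖ := by rw [← Finset.sum_mul, h.t1, one_mul]

/-- convergence of the values -/
theorem hv_tendsto {u' : ℕ → X r ι} {s' : ℕ → E} (hu : Tendsto u' atTop (𝓝 u)) (hs : Tendsto s' atTop (𝓝 s))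
    (j : Fin r) (v : ι) : Tendsto (fun n => hv p H (u' n) (s' n) j v) atTop (𝓝 (hv p H u s j v)) := by
  unfold hv
  refine Tendsto.add (Tendsto.add tendsto_const_nhds ?_) ?_
  · have h1 : Continuous (fun x : X r ι => x (j, v)) := by fun_prop
    exact (h1.tendsto u).comp hu
  · exact hs.inner tendsto_const_nhds

end

end J_limit

/-- TARGET -/
theorem limit {E : Type} [NormedAddCommGroup E] [InnerProductSpace ℝ E] [FiniteDimensional ℝ E]
    {r : ℕ} {ι : Type} [Fintype ι]
    (p : ι → E) (L : Submodule ℝ (X r ι)) (H : Fin r → ι → ℝ) (o : E) (R A K : ℝ) (hR : 0 < R)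
    (hS : ∀ n : ℕ, ∃ (u : X r ι) (s : E) (w : Fin r × ι → ℝ) (t : Fin r × Fin r × ι → ℝ) (κ : ℝ),
      Sol p L H o R (1 / (n + 1)) (1 / (n + 1)) u s w t κ ∧ ‖u‖ ≤ A ∧
      ∀ j v, (∀ j' v', hv p H u s j v ≤ hv p H u s j' v' + 1) →
        ∀ v', inner ℝ s (p v) ≤ inner ℝ s (p v') + K) :
    ∃ (u : X r ι) (s : E) (w : Fin r × ι → ℝ) (t : Fin r × Fin r × ι → ℝ) (κ : ℝ),
      Sol p L H o R 0 0 u s w t κ ∧
      ∀ j v, (∀ j' v', hv p H u s j v ≤ hv p H u s j' v') →
        ∀ v', inner ℝ s (p v) ≤ inner ℝ s (p v') + K := by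
  open Filter Topology in
  choose u' s' w' t' κ' hS' hA hK using hS
  have hproper : ProperSpace E := FiniteDimensional.proper_real E
  obtain ⟨C, hC⟩ : ∃ C, C = (∑ v, ‖p v‖ + ‖o‖) / R := ⟨_, rfl⟩
  have hcomp : IsCompact (Metric.closedBall (0 : X r ι) A ×ˢ Metric.closedBall (0 : E) R ×ˢ
      (Set.Icc (0 : Fin r × ι → ℝ) 1) ×ˢ (Set.Icc (0 : Fin r × Fin r × ι → ℝ) 1) ×ˢ Set.Icc (0 : ℝ) C) :=
    (isCompact_closedBall _ _).prod ((isCompact_closedBall _ _).prod
      (isCompact_Icc.prod (isCompact_Icc.prod isCompact_Icc)))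
  obtain ⟨⟨u, s, w, t, κ⟩, -, φ, hφ, hlim⟩ := hcomp.tendsto_subseq
    (x := fun n => (u' n, s' n, w' n, t' n, κ' n)) (fun n => by
      refine ⟨?_, ?_, ⟨fun q => (hS' n).w0 q, fun q => J_limit.w_le (hS' n) q⟩,
        ⟨fun q => (hS' n).t0 q, fun q => J_limit.t_le (hS' n) q⟩, (hS' n).k0, ?_⟩
      · rw [mem_closedBall_zero_iff]
        exact hA n
      · rw [mem_closedBall_zero_iff]
        exact (hS' n).hs
      · rw [hC]
        exact J_limit.kap_le hR (hS' n))
  have hu : Tendsto (fun n => u' (φ n)) atTop (𝓝 u) := (continuous_fst.tendsto _).comp hlim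
  have hs : Tendsto (fun n => s' (φ n)) atTop (𝓝 s) :=
    ((continuous_fst.comp continuous_snd).tendsto _).comp hlim
  have hw : Tendsto (fun n => w' (φ n)) atTop (𝓝 w) :=
    ((continuous_fst.comp (continuous_snd.comp continuous_snd)).tendsto _).comp hlim
  have ht : Tendsto (fun n => t' (φ n)) atTop (𝓝 t) :=
    ((continuous_fst.comp (continuous_snd.comp (continuous_snd.comp continuous_snd))).tendsto _).comp hlim
  have hκ : Tendsto (fun n => κ' (φ n)) atTop (𝓝 κ) :=
    ((continuous_snd.comp (continuous_snd.comp (continuous_snd.comp continuous_snd))).tendsto _).comp hlim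
  have hwq : ∀ q, Tendsto (fun n => w' (φ n) q) atTop (𝓝 (w q)) := fun q => (tendsto_pi_nhds.1 hw) q
  have htq : ∀ q, Tendsto (fun n => t' (φ n) q) atTop (𝓝 (t q)) := fun q => (tendsto_pi_nhds.1 ht) q
  have hδ : Tendsto (fun n => 1 / ((φ n : ℝ) + 1)) atTop (𝓝 0) :=
    (tendsto_one_div_add_atTop_nhds_zero_nat (𝕜 := ℝ)).comp hφ.tendsto_atTop
  have hvt : ∀ j v, Tendsto (fun n => hv p H (u' (φ n)) (s' (φ n)) j v) atTop (𝓝 (hv p H u s j v)) :=
    fun j v => J_limit.hv_tendsto hu hs j v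
  refine ⟨u, s, w, t, κ, ⟨?_, ?_, ?_, ?_, ?_, ?_, ?_, ?_, ?_, ?_, ?_, ?_, ?_⟩, ?_⟩
  · exact (Submodule.closed_of_finiteDimensional L).mem_of_tendsto hu
      (Eventually.of_forall fun n => (hS' (φ n)).hu)
  · exact le_of_tendsto hs.norm (Eventually.of_forall fun n => (hS' (φ n)).hs)
  · exact fun q => ge_of_tendsto' (hwq q) fun n => (hS' (φ n)).w0 q
  · refine tendsto_nhds_unique (tendsto_finsetSum Finset.univ fun q _ => hwq q) ?_
    simp only [(hS' _).w1]
    exact tendsto_const_nhds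
  · intro j v hjv j' v'
    have h1 := (hwq (j, v)).eventually_ne hjv
    exact le_of_tendsto_of_tendsto (hvt j v) ((hvt j' v').add hδ)
      (h1.mono fun n hn => (hS' (φ n)).wsupp j v hn j' v')
  · intro D hD
    refine tendsto_nhds_unique (f := fun n => 2 * (1 / ((φ n : ℝ) + 1)) * inner ℝ (u' (φ n)) D)
      ((tendsto_const_nhds.mul hδ).mul (hu.inner tendsto_const_nhds)) ?_
    have h1 : Tendsto (fun n => ∑ q, w' (φ n) q * D q) atTop (𝓝 (∑ q, w q * D q)) :=
      tendsto_finsetSum Finset.univ fun q _ => (hwq q).mul tendsto_const_nhds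
    refine h1.congr fun n => ?_
    exact ((hS' (φ n)).stat D hD).symm
  · exact fun q => ge_of_tendsto' (htq q) fun n => (hS' (φ n)).t0 q
  · refine tendsto_nhds_unique (tendsto_finsetSum Finset.univ fun q _ => htq q) ?_
    simp only [(hS' _).t1]
    exact tendsto_const_nhds
  · intro i j v h
    obtain ⟨n, hn⟩ := ((htq (i, j, v)).eventually_ne h).exists
    exact (hS' (φ n)).tne i j v hn
  · intro i j v h i' j' v' hij
    have h1 := (htq (i, j, v)).eventually_ne h
    exact le_of_tendsto_of_tendsto ((hvt i v).max (hvt j v)) (((hvt i' v').max (hvt j' v')).add hδ)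
      (h1.mono fun n hn => (hS' (φ n)).tsupp i j v hn i' j' v' hij)
  · refine tendsto_nhds_unique (f := fun n => κ' (φ n) • s' (φ n)) ?_ (hκ.smul hs)
    have h1 : Tendsto (fun n => ∑ q : Fin r × Fin r × ι, t' (φ n) q • p q.2.2 - o) atTop
        (𝓝 (∑ q : Fin r × Fin r × ι, t q • p q.2.2 - o)) :=
      (tendsto_finsetSum Finset.univ fun q _ => (htq q).smul tendsto_const_nhds).sub tendsto_const_nhds
    exact h1.congr fun n => (hS' (φ n)).kap
  · exact ge_of_tendsto' hκ fun n => (hS' (φ n)).k0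
  · by_cases h : κ = 0
    · exact Or.inl h
    · right
      refine tendsto_nhds_unique hs.norm (tendsto_const_nhds.congr' ?_)
      exact (hκ.eventually_ne h).mono fun n hn => (((hS' (φ n)).k1).resolve_left hn).symm
  · intro j v h v'
    refine le_of_tendsto_of_tendsto (hs.inner tendsto_const_nhds)
      ((hs.inner tendsto_const_nhds).add tendsto_const_nhds) ?_
    have h1 : ∀ᶠ n in atTop, ∀ j' v', hv p H (u' (φ n)) (s' (φ n)) j v ≤
        hv p H (u' (φ n)) (s' (φ n)) j' v' + 1 := by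
      rw [eventually_all]
      intro j'
      rw [eventually_all]
      intro v''
      have h2 := (hvt j v).eventually_lt ((hvt j' v'').add tendsto_const_nhds)
        (show hv p H u s j v < hv p H u s j' v'' + 1 by linarith [h j' v''])
      exact h2.mono fun n hn => hn.le
    exact h1.mono fun n hn => hK (φ n) j v hn v'

end Pool.Agent.Helper326_TP
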