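import Pool.Agent.Helper326_TP.Defs

set_option autoImplicit false

/-!
Continuous weights on the near minimisers.
-/

namespace Pool.Agent.Helper326_TP



/-- TARGET -/
theorem soft_argmin (Q : Type) [Fintype Q] [Nonempty Q] (δ : ℝ) (hδ : 0 < δ) :
    ∃ τ : (Q → ℝ) → Q → ℝ, Continuous τ ∧ (∀ φ q, 0 ≤ τ φ q) ∧ (∀ φ, ∑ q, τ φ q = 1) ∧
      ∀ φ q, τ φ q ≠ 0 → ∀ q', φ q ≤ φ q' + δ := by
  classical
  let M : (Q → ℝ) → ℝ := fun φ => Finset.univ.inf' Finset.univ_nonempty φ
  have hMle : ∀ φ q, M φ ≤ φ q := fun φ q => Finset.inf'_le _ (Finset.mem_univ q)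
  have hMex : ∀ φ, ∃ q, M φ = φ q := fun φ => by
    obtain ⟨q, _, hq⟩ := Finset.exists_mem_eq_inf' (Finset.univ_nonempty (α := Q)) φ
    exact ⟨q, hq⟩
  have hMc : Continuous M := by
    apply Continuous.finset_inf'_apply
    intro q _
    exact continuous_apply q
  let a : (Q → ℝ) → Q → ℝ := fun φ q => max 0 (δ - (φ q - M φ))
  have ha0 : ∀ φ q, 0 ≤ a φ q := fun φ q => le_max_left _ _
  have hac : ∀ q, Continuous fun φ => a φ q := fun q =>
    continuous_const.max (continuous_const.sub ((continuous_apply q).sub hMc))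
  have hS : ∀ φ, 0 < ∑ q, a φ q := by
    intro φ
    obtain ⟨q, hq⟩ := hMex φ
    have h1 : δ ≤ a φ q := by
      refine le_trans ?_ (le_max_right _ _)
      rw [hq]
      linarith
    exact lt_of_lt_of_le (lt_of_lt_of_le hδ h1)
      (Finset.single_le_sum (fun q _ => ha0 φ q) (Finset.mem_univ q))
  refine ⟨fun φ q => a φ q / ∑ q, a φ q, ?_, fun φ q => div_nonneg (ha0 φ q) (hS φ).le, ?_, ?_⟩
  · refine continuous_pi fun q => ?_
    exact (hac q).div (continuous_finsetSum _ fun q _ => hac q) fun φ => (hS φ).ne'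
  · intro φ
    rw [← Finset.sum_div]
    exact div_self (hS φ).ne'
  · intro φ q h q'
    have h1 : a φ q ≠ 0 := fun h0 => h (by beta_reduce; rw [h0, zero_div])
    have h2 : 0 < δ - (φ q - M φ) := by
      by_contra h3
      push Not at h3
      exact h1 (max_eq_left h3)
    have h3 := hMle φ q'
    linarith

end Pool.Agent.Helper326_TP
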