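import Pool.Agent.Helper326_TP.Defs
import Pool.Agent.Helper326_TP.BrouwerFix
import Pool.Agent.Helper326_TP.SoftArgmin

set_option autoImplicit false

/-!
Approximate solutions by the fixed point theorem of Brouwer.
-/

namespace Pool.Agent.Helper326_TP



namespace J_sol_exists

theorem norm_simplex {Q : Type} [Fintype Q] (w : Q → ℝ) (h0 : ∀ q, 0 ≤ w q) (h1 : ∑ q, w q = 1) :
    ‖(WithLp.toLp 2 w : EuclideanSpace ℝ Q)‖ ≤ 1 := by
  rw [EuclideanSpace.norm_eq, Real.sqrt_le_one]
  have hle : ∀ q, w q ≤ 1 := by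
    intro q
    rw [← h1]
    exact Finset.single_le_sum (fun i _ => h0 i) (Finset.mem_univ q)
  calc ∑ q, ‖(WithLp.toLp 2 w : EuclideanSpace ℝ Q) q‖ ^ 2 ≤ ∑ q, w q := by
        refine Finset.sum_le_sum fun q _ => ?_
        change ‖w q‖ ^ 2 ≤ w q
        rw [Real.norm_of_nonneg (h0 q)]
        nlinarith [h0 q, hle q]
    _ = 1 := h1

end J_sol_exists

/-- TARGET -/
theorem sol_exists {E : Type} [NormedAddCommGroup E] [InnerProductSpace ℝ E] [FiniteDimensional ℝ E]
    {r : ℕ} (hr : 2 ≤ r) {ι : Type} [Fintype ι] [Nonempty ι]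
    (p : ι → E) (L : Submodule ℝ (X r ι)) (H : Fin r → ι → ℝ) (o : E) (R ε δ : ℝ) (hR : 0 < R) (hε : 0 < ε)
    (hδ : 0 < δ) :
    ∃ (u : X r ι) (s : E) (w : Fin r × ι → ℝ) (t : Fin r × Fin r × ι → ℝ) (κ : ℝ),
      Sol p L H o R ε δ u s w t κ := by
  classical
  have : Nonempty (Fin r) := ⟨⟨0, by omega⟩⟩
  let Q2 : Type := {q : Fin r × Fin r × ι // q.1 ≠ q.2.1}
  have : Nonempty Q2 := by
    obtain ⟨v⟩ := (inferInstance : Nonempty ι)
    refine ⟨⟨(⟨0, by omega⟩, ⟨1, by omega⟩, v), ?_⟩⟩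
    intro h
    simp at h
  obtain ⟨τ, τc, τ0, τ1, τs⟩ := soft_argmin (Fin r × ι) δ hδ
  obtain ⟨τ2, τ2c, τ20, τ21, τ2s⟩ := soft_argmin Q2 δ hδ
  have hvc : ∀ j v, Continuous fun z : L × E => hv p H (z.1 : X r ι) z.2 j v := by
    intro j v
    unfold hv
    refine (continuous_const.add ?_).add ?_
    · exact (EuclideanSpace.proj (𝕜 := ℝ) (j, v)).continuous.comp
        (continuous_subtype_val.comp continuous_fst)
    · exact continuous_snd.inner continuous_const
  let W : L × E → (Fin r × ι → ℝ) := fun z => τ (fun q => hv p H (z.1 : X r ι) z.2 q.1 q.2)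
  have hW : Continuous W := τc.comp (continuous_pi fun q => hvc q.1 q.2)
  let T2 : L × E → (Q2 → ℝ) := fun z =>
    τ2 (fun q => max (hv p H (z.1 : X r ι) z.2 q.1.1 q.1.2.2)
      (hv p H (z.1 : X r ι) z.2 q.1.2.1 q.1.2.2))
  have hT2 : Continuous T2 :=
    τ2c.comp (continuous_pi fun q => (hvc q.1.1 q.1.2.2).max (hvc q.1.2.1 q.1.2.2))
  let T : L × E → (Fin r × Fin r × ι → ℝ) := fun z q =>
    if hq : q.1 ≠ q.2.1 then T2 z ⟨q, hq⟩ else 0
  have hT : ∀ q, Continuous fun z => T z q := by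
    intro q
    by_cases hq : q.1 ≠ q.2.1
    · have : (fun z => T z q) = fun z => T2 z ⟨q, hq⟩ := by
        funext z
        simp only [T, dif_pos hq]
      rw [this]
      exact (continuous_apply _).comp hT2
    · have : (fun z => T z q) = fun z => 0 := by
        funext z
        simp only [T, dif_neg hq]
      rw [this]
      exact continuous_const
  let x : L × E → E := fun z => ∑ q : Fin r × Fin r × ι, T z q • p q.2.2
  have hx : Continuous x := continuous_finsetSum _ fun q _ => (hT q).smul continuous_const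
  let y : L × E → E := fun z => z.2 + x z - o
  have hy : Continuous y := (continuous_snd.add hx).sub continuous_const
  have hmax : ∀ z, 0 < max R ‖y z‖ := fun z => lt_max_of_lt_left hR
  let F : L × E → L × E := fun z =>
    ((1 / (2 * ε)) • L.orthogonalProjectionOnto (WithLp.toLp 2 (W z) : X r ι),
      (R / max R ‖y z‖) • y z)
  have hF : Continuous F := by
    refine Continuous.prodMk ?_ ?_
    · refine Continuous.smul (continuous_const : Continuous fun _ : L × E => (1 / (2 * ε) : ℝ)) ?_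
      exact L.orthogonalProjectionOnto.continuous.comp ((PiLp.continuous_toLp 2 _).comp hW)
    · refine Continuous.smul ?_ hy
      exact continuous_const.div (continuous_const.max hy.norm) fun z => (hmax z).ne'
  have hFb : ∀ z, ‖F z‖ ≤ max (1 / (2 * ε)) R := by
    intro z
    rw [Prod.norm_def]
    refine max_le_max ?_ ?_
    · change ‖(1 / (2 * ε)) • L.orthogonalProjectionOnto (WithLp.toLp 2 (W z) : X r ι)‖ ≤ _
      rw [norm_smul, Real.norm_of_nonneg (by positivity)]
      have h1 : ‖L.orthogonalProjectionOnto (WithLp.toLp 2 (W z) : X r ι)‖ ≤ 1 := by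
        refine (L.norm_orthogonalProjectionOnto_apply_le _).trans ?_
        exact J_sol_exists.norm_simplex _ (τ0 _) (τ1 _)
      calc 1 / (2 * ε) * ‖L.orthogonalProjectionOnto (WithLp.toLp 2 (W z) : X r ι)‖
          ≤ 1 / (2 * ε) * 1 := by gcongr
        _ = _ := mul_one _
    · change ‖(R / max R ‖y z‖) • y z‖ ≤ R
      rw [norm_smul, Real.norm_of_nonneg (div_nonneg hR.le (hmax z).le), div_mul_eq_mul_div,
        div_le_iff₀ (hmax z)]
      gcongr
      exact le_max_right _ _
  obtain ⟨z, hz⟩ := brouwer_fix F hF _ hFb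
  have hz1 : (1 / (2 * ε)) • L.orthogonalProjectionOnto (WithLp.toLp 2 (W z) : X r ι) = z.1 :=
    congrArg Prod.fst hz
  have hz2 : (R / max R ‖y z‖) • y z = z.2 := congrArg Prod.snd hz
  have hstat : ∀ D ∈ L, 2 * ε * inner ℝ (z.1 : X r ι) D = ∑ q, W z q * D q := by
    intro D hD
    rw [← hz1]
    have h1 : inner ℝ (L.orthogonalProjectionOnto (WithLp.toLp 2 (W z) : X r ι) : X r ι) D =
        inner ℝ (WithLp.toLp 2 (W z) : X r ι) D := by
      exact Submodule.inner_orthogonalProjectionOnto_eq_of_mem_right ⟨D, hD⟩ _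
    rw [Submodule.coe_smul, inner_smul_left, h1]
    rw [PiLp.inner_apply]
    simp only [RCLike.inner_apply, conj_trivial]
    rw [← mul_assoc, mul_one_div_cancel (by positivity), one_mul]
    exact Finset.sum_congr rfl fun q _ => mul_comm _ _
  have hTsum : ∑ q, T z q = 1 := by
    rw [← τ21 (fun q : Q2 => max (hv p H (z.1 : X r ι) z.2 q.1.1 q.1.2.2)
      (hv p H (z.1 : X r ι) z.2 q.1.2.1 q.1.2.2))]
    rw [← Finset.sum_subset (Finset.subset_univ (Finset.univ.filter
      fun q : Fin r × Fin r × ι => q.1 ≠ q.2.1))]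
    · rw [Finset.sum_subtype (Finset.univ.filter fun q : Fin r × Fin r × ι => q.1 ≠ q.2.1)
        (p := fun q => q.1 ≠ q.2.1) (by simp)]
      refine Finset.sum_congr rfl fun q _ => ?_
      simp only [T, dif_pos q.2]
      rfl
    · intro q _ hq
      have hq' : ¬ q.1 ≠ q.2.1 := by simpa using hq
      simp only [T, dif_neg hq']
  have hsn : ‖z.2‖ ≤ R := by
    have := hFb z
    rw [← hz2, norm_smul, Real.norm_of_nonneg (div_nonneg hR.le (hmax z).le), div_mul_eq_mul_div,
        div_le_iff₀ (hmax z)]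
    gcongr
    exact le_max_right _ _
  have hTne : ∀ i j v, T z (i, j, v) ≠ 0 → i ≠ j := by
    intro i j v h hij
    apply h
    simp only [T, dif_neg (not_not.2 hij)]
  have hTs : ∀ i j v, T z (i, j, v) ≠ 0 → ∀ i' j' v', i' ≠ j' →
    max (hv p H (z.1 : X r ι) z.2 i v) (hv p H (z.1 : X r ι) z.2 j v) ≤
      max (hv p H (z.1 : X r ι) z.2 i' v') (hv p H (z.1 : X r ι) z.2 j' v') + δ := by
    intro i j v h i' j' v' hij'
    have hij := hTne i j v h
    have h1 : T z (i, j, v) = T2 z ⟨(i, j, v), hij⟩ := by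
      simp only [T]
      exact dif_pos hij
    rw [h1] at h
    exact τ2s _ _ h ⟨(i', j', v'), hij'⟩
  have hT0 : ∀ q, 0 ≤ T z q := by
    intro q
    by_cases hq : q.1 ≠ q.2.1
    · simp only [T, dif_pos hq]; exact τ20 _ _
    · simp only [T, dif_neg hq]; exact le_rfl
  have hWs : ∀ j v, W z (j, v) ≠ 0 → ∀ j' v', hv p H (z.1 : X r ι) z.2 j v ≤
      hv p H (z.1 : X r ι) z.2 j' v' + δ := by
    intro j v h j' v'
    exact τs _ _ h (j', v')
  by_cases hc : ‖y z‖ ≤ R
  · refine ⟨z.1, z.2, W z, T z, 0, ?_⟩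
    refine ⟨z.1.2, hsn, τ0 _, τ1 _, hWs, hstat, hT0, hTsum, hTne, hTs, ?_, le_rfl, Or.inl rfl⟩
    rw [max_eq_left hc, div_self hR.ne', one_smul] at hz2
    have h3 : z.2 + x z - o = z.2 := hz2
    rw [zero_smul]
    change x z - o = 0
    have : x z - o = (z.2 + x z - o) - z.2 := by abel
    rw [this, h3, sub_self]
  · push Not at hc
    have hyp : 0 < ‖y z‖ := hR.trans hc
    refine ⟨z.1, z.2, W z, T z, ‖y z‖ / R - 1, ?_⟩
    rw [max_eq_right hc.le] at hz2
    refine ⟨z.1.2, hsn, τ0 _, τ1 _, hWs, hstat, hT0, hTsum, hTne, hTs, ?_, ?_, Or.inr ?_⟩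
    · change x z - o = _
      have h3 : x z - o = y z - z.2 := by
        simp only [y]; abel
      rw [h3, ← hz2, sub_smul, smul_smul, one_smul]
      congr 1
      rw [div_mul_div_comm, mul_comm, div_self (by positivity), one_smul]
    · rw [sub_nonneg, one_le_div hR]
      exact hc.le
    · rw [← hz2, norm_smul, Real.norm_of_nonneg (by positivity), div_mul_cancel₀ _ hyp.ne']

end Pool.Agent.Helper326_TP
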