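import Pool.Agent.Helper326_TP.Defs
import Pool.Agent.Helper326_TP.SolExists
import Pool.Agent.Helper326_TP.Boundary
import Pool.Agent.Helper326_TP.Bounded
import Pool.Agent.Helper326_TP.Limit

set_option autoImplicit false

/-!
Existence of an untied configuration.
-/

namespace Pool.Agent.Helper326_TP



namespace J_untied

theorem sum3 {r : ℕ} {ι : Type} [Fintype ι] {M : Type} [AddCommMonoid M] (g : Fin r × Fin r × ι → M) :
    ∑ q, g q = ∑ v, ∑ i, ∑ j, g (i, j, v) := by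
  rw [Fintype.sum_prod_type]
  have h1 : ∀ i : Fin r, ∑ q : Fin r × ι, g (i, q) = ∑ v, ∑ j, g (i, j, v) := by
    intro i
    rw [Fintype.sum_prod_type, Finset.sum_comm]
  rw [Finset.sum_congr rfl fun i _ => h1 i, Finset.sum_comm]

end J_untied

/-- TARGET -/
theorem untied {E : Type} [NormedAddCommGroup E] [InnerProductSpace ℝ E] [FiniteDimensional ℝ E]
    {r : ℕ} (hr : 2 ≤ r) {ι : Type} [Fintype ι] [Nonempty ι]
    (p : ι → E) (L : Submodule ℝ (X r ι)) (hL : ∀ u ∈ L, ∀ v, ∑ j, u (j, v) = 0) (H : Fin r → ι → ℝ)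
    (o : E) (c : ℝ) (hc : 0 < c) (ho : ∀ s : E, ∃ v, inner ℝ s (p v) ≤ inner ℝ s o - c * ‖s‖)
    (hgen : ∀ t : ι → ℝ, (∀ v, 0 ≤ t v) → ∑ v, t v = 1 → ∑ v, t v • p v = o →
      affineSpan ℝ (p '' {v | t v ≠ 0}) = ⊤)
    (hH : ∀ u ∈ L, ∀ S : Set ι, affineSpan ℝ (p '' S) = ⊤ →
      ∃ v ∈ S, ∀ i j, i ≠ j → H i v + u (i, v) ≠ H j v + u (j, v)) :
    ∃ u ∈ L, ∃ (s : E) (w : Fin r × ι → ℝ), (∀ q, 0 ≤ w q) ∧ ∑ q, w q = 1 ∧
      (∀ j v, w (j, v) ≠ 0 → ∀ j' v', hv p H u s j v ≤ hv p H u s j' v') ∧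
      (∀ D ∈ L, ∑ q, w q * D q = 0) ∧
      ∀ v i j, i ≠ j → ¬ ((∀ j' v', hv p H u s i v ≤ hv p H u s j' v') ∧
        (∀ j' v', hv p H u s j v ≤ hv p H u s j' v')) := by
  obtain ⟨K, hK0, hK⟩ := boundary hr p L hL H
  obtain ⟨R, hRdef⟩ : ∃ R : ℝ, R = K / c + 1 := ⟨_, rfl⟩
  have hR : 0 < R := by
    rw [hRdef]
    have : 0 ≤ K / c := div_nonneg hK0 hc.le
    linarith
  have hcR : c * R = K + c := by
    rw [hRdef, mul_add, mul_one, mul_div_cancel₀ _ hc.ne']
  obtain ⟨A, hA⟩ := bounded hr p L hL H R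
  obtain ⟨u, s, w, t, κ, hS, hb⟩ := limit p L H o R A K hR (fun n => by
    have hε : (0 : ℝ) < 1 / ((n : ℝ) + 1) := by positivity
    have hδ : 1 / ((n : ℝ) + 1) ≤ 1 := by
      rw [div_le_one (by positivity)]
      have : (0 : ℝ) ≤ n := Nat.cast_nonneg n
      linarith
    obtain ⟨u, s, w, t, κ, hSol⟩ := sol_exists hr p L H o R (1 / ((n : ℝ) + 1)) (1 / ((n : ℝ) + 1)) hR hε hε
    exact ⟨u, s, w, t, κ, hSol, hA o _ _ u s w t κ hε hδ hSol, hK o R _ _ u s w t κ hε hδ hSol⟩)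
  refine ⟨u, hS.hu, s, w, hS.w0, hS.w1, ?_, ?_, ?_⟩
  · intro j v h j' v'
    have h1 := hS.wsupp j v h j' v'
    rwa [add_zero] at h1
  · intro D hD
    have h1 := hS.stat D hD
    rw [mul_zero, zero_mul] at h1
    exact h1.symm
  · rintro v₀ i₀ j₀ hne ⟨h1, h2⟩
    have key : ∀ i j v, t (i, j, v) ≠ 0 → i ≠ j ∧ (∀ j' v', hv p H u s i v ≤ hv p H u s j' v') ∧
        ∀ j' v', hv p H u s j v ≤ hv p H u s j' v' := by
      intro i j v h
      have h3 := hS.tsupp i j v h i₀ j₀ v₀ hne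
      rw [add_zero] at h3
      refine ⟨hS.tne i j v h, fun j' v' => ?_, fun j' v' => ?_⟩
      · exact (le_max_left _ _).trans (h3.trans (max_le (h1 j' v') (h2 j' v')))
      · exact (le_max_right _ _).trans (h3.trans (max_le (h1 j' v') (h2 j' v')))
    obtain ⟨T, hT⟩ : ∃ T : ι → ℝ, T = fun v => ∑ i, ∑ j, t (i, j, v) := ⟨_, rfl⟩
    have hT0 : ∀ v, 0 ≤ T v := by
      intro v
      rw [hT]
      exact Finset.sum_nonneg fun i _ => Finset.sum_nonneg fun j _ => hS.t0 _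
    have hT1 : ∑ v, T v = 1 := by
      rw [← hS.t1, J_untied.sum3, hT]
    have hTs : ∑ v, T v • p v = ∑ q : Fin r × Fin r × ι, t q • p q.2.2 := by
      rw [J_untied.sum3, hT]
      refine Finset.sum_congr rfl fun v _ => ?_
      dsimp only
      rw [Finset.sum_smul]
      refine Finset.sum_congr rfl fun i _ => ?_
      rw [Finset.sum_smul]
    have hTne : ∀ v, T v ≠ 0 → ∃ i j, t (i, j, v) ≠ 0 := by
      intro v hv0
      by_contra hcon
      push Not at hcon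
      apply hv0
      rw [hT]
      exact Finset.sum_eq_zero fun i _ => Finset.sum_eq_zero fun j _ => hcon i j
    by_cases hκ : κ = 0
    · have h3 := hS.kap
      rw [hκ, zero_smul, sub_eq_zero, ← hTs] at h3
      obtain ⟨v, hv0, hv1⟩ := hH u hS.hu {v | T v ≠ 0} (hgen T hT0 hT1 h3)
      obtain ⟨i, j, hij⟩ := hTne v hv0
      obtain ⟨h4, h5, h6⟩ := key i j v hij
      have h7 := le_antisymm (h5 j v) (h6 i v)
      unfold hv at h7
      exact hv1 i j h4 (add_right_cancel h7)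
    · have hsR : ‖s‖ = R := hS.k1.resolve_left hκ
      obtain ⟨v₁, hv₁⟩ := ho s
      rw [hsR, hcR] at hv₁
      have h3 : ∀ v, T v * inner ℝ s (p v) ≤ T v * (inner ℝ s o - c) := by
        intro v
        by_cases hv0 : T v = 0
        · rw [hv0, zero_mul, zero_mul]
        · obtain ⟨i, j, hij⟩ := hTne v hv0
          obtain ⟨h4, h5, h6⟩ := key i j v hij
          have h7 := hb i v h5 v₁
          exact mul_le_mul_of_nonneg_left (by linarith) (hT0 v)
      have h8 : inner ℝ s (∑ v, T v • p v) ≤ inner ℝ s o - c := by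
        rw [inner_sum]
        calc ∑ v, inner ℝ s (T v • p v) = ∑ v, T v * inner ℝ s (p v) :=
              Finset.sum_congr rfl fun v _ => by rw [real_inner_smul_right]
          _ ≤ ∑ v, T v * (inner ℝ s o - c) := Finset.sum_le_sum fun v _ => h3 v
          _ = inner ℝ s o - c := by rw [← Finset.sum_mul, hT1, one_mul]
      have h9 : inner ℝ s (∑ v, T v • p v - o) = κ * ‖s‖ ^ 2 := by
        rw [hTs, hS.kap, real_inner_smul_right, real_inner_self_eq_norm_sq]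
      rw [inner_sub_right] at h9
      have h10 : 0 ≤ κ * ‖s‖ ^ 2 := mul_nonneg hS.k0 (by positivity)
      linarith

end Pool.Agent.Helper326_TP
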