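import Pool.Agent.Helper326_TP.Defs
import Pool.Agent.Helper326_TP.Untied
import Pool.Agent.Helper326_TP.GenericPoint
import Pool.Agent.Helper326_TP.GenericHeight
import Pool.Agent.Helper326_TP.Space

set_option autoImplicit false

/-!
The main theorem for spanning families of points.
-/

namespace Pool.Agent.Helper326_TP



namespace J_core

theorem sum_apply {E : Type} [NormedAddCommGroup E] [InnerProductSpace ℝ E] {α : Type} (S : Finset α)
    (F : α → (E →ᵃ[ℝ] ℝ)) (x : E) : (∑ k ∈ S, F k) x = ∑ k ∈ S, F k x := by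
  classical
  induction S using Finset.induction_on with
  | empty => simp
  | insert b S hb ih => rw [Finset.sum_insert hb, Finset.sum_insert hb, AffineMap.coe_add, Pi.add_apply, ih]

theorem euc_sum {d : ℕ} {α : Type} (S : Finset α) (F : α → EuclideanSpace ℝ (Fin d)) (k : Fin d) :
    (∑ v ∈ S, F v) k = ∑ v ∈ S, F v k := by
  classical
  induction S using Finset.induction_on with
  | empty => simp
  | insert b S hb ih => rw [Finset.sum_insert hb, Finset.sum_insert hb, PiLp.add_apply, ih]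

end J_core

/-- TARGET -/
theorem core {E : Type} [NormedAddCommGroup E] [InnerProductSpace ℝ E] [FiniteDimensional ℝ E]
    {ι : Type} [Fintype ι] [Nonempty ι] (p : ι → E) (hp : affineSpan ℝ (Set.range p) = ⊤)
    {d r : ℕ} (hr : 2 ≤ r) (hm : (d + 1) * (r - 1) ≤ Module.finrank ℝ E)
    (f : E →ᵃ[ℝ] EuclideanSpace ℝ (Fin d)) :
    ∃ (g : Fin r → (E →ᵃ[ℝ] ℝ)) (ψ : ℝ) (w : Fin r → ι → ℝ) (z : EuclideanSpace ℝ (Fin d)),
      (∀ j v, ψ ≤ g j (p v)) ∧ (∀ j v, 0 ≤ w j v) ∧ (∀ j, ∑ v, w j v = 1) ∧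
      (∀ j v, w j v ≠ 0 → g j (p v) = ψ) ∧
      (∀ v i j, i ≠ j → ¬ (g i (p v) = ψ ∧ g j (p v) = ψ)) ∧
      ∀ j, ∑ v, w j v • f (p v) = z := by
  classical
  have : NeZero r := ⟨by omega⟩
  obtain ⟨L, hfin, hzero, hcoef, hw⟩ := space (ι := ι) hr
    (Fin.cons (fun _ => (1 : ℝ)) (fun k v => f (p v) k) : Fin (d + 1) → ι → ℝ)
  obtain ⟨o, c, hc, ho, hgen⟩ := generic_point p hp
  obtain ⟨a, ha⟩ := generic_height (r := r) p L (hfin.trans hm)
  obtain ⟨u, hu, s, w, w0, w1, wsupp, stat, tie⟩ :=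
    untied hr p L hzero (fun j v => a j (p v)) o c hc ho hgen ha
  choose cj hcj using hcoef u hu
  set g : Fin r → (E →ᵃ[ℝ] ℝ) := fun j => a j + AffineMap.const ℝ E (cj j 0) +
    ∑ k : Fin d, cj j k.succ • ((EuclideanSpace.proj (𝕜 := ℝ) k).toLinearMap.toAffineMap.comp f) +
    (innerSL ℝ s).toLinearMap.toAffineMap with hg
  have hgv : ∀ j v, g j (p v) = hv p (fun j v => a j (p v)) u s j v := by
    intro j v
    rw [hg, hv, hcj j v, Fin.sum_univ_succ]
    simp [J_core.sum_apply]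
    ring
  obtain ⟨q0, hq0⟩ := Finite.exists_min (fun q : Fin r × ι =>
    hv p (fun j v => a j (p v)) u s q.1 q.2)
  have hmin : ∀ j v, hv p (fun j v => a j (p v)) u s q0.1 q0.2 ≤
      hv p (fun j v => a j (p v)) u s j v := fun j v => hq0 (j, v)
  have hsum : ∀ i j, ∑ v, w (i, v) = ∑ v, w (j, v) := by
    intro i j
    have := hw w stat i j 0
    simpa using this
  have htot : ∀ j, (r : ℝ) * ∑ v, w (j, v) = 1 := by
    intro j
    rw [← w1, Fintype.sum_prod_type, Finset.sum_congr rfl (fun i _ => hsum i j)]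
    simp
  refine ⟨g, hv p (fun j v => a j (p v)) u s q0.1 q0.2, fun j v => r * w (j, v),
    ∑ v, ((r : ℝ) * w (0, v)) • f (p v), ?_, ?_, ?_, ?_, ?_, ?_⟩
  · intro j v
    rw [hgv]
    exact hmin j v
  · intro j v
    exact mul_nonneg (Nat.cast_nonneg _) (w0 _)
  · intro j
    rw [← Finset.mul_sum, htot j]
  · intro j v h
    have hwn : w (j, v) ≠ 0 := fun h0 => h (by simp [h0])
    rw [hgv]
    exact le_antisymm (wsupp j v hwn _ _) (hmin j v)
  · rintro v i j hij ⟨h1, h2⟩
    apply tie v i j hij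
    rw [hgv] at h1 h2
    constructor
    · intro j' v'
      rw [h1]
      exact hmin j' v'
    · intro j' v'
      rw [h2]
      exact hmin j' v'
  · intro j
    ext k
    have h3 := hw w stat j 0 k.succ
    simp only [Fin.cons_succ] at h3
    rw [J_core.euc_sum, J_core.euc_sum]
    simp only [PiLp.smul_apply, smul_eq_mul, mul_assoc]
    rw [← Finset.mul_sum, ← Finset.mul_sum, h3]

end Pool.Agent.Helper326_TP
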