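import Mathlib

set_option autoImplicit false

/-!
Definitions for the project MP_c51d14_co (Tverberg type intersections for linear images of polytopes).
-/

namespace Pool.Agent.Helper326_TP

/-- Real functions on pairs (label, vertex), with the Euclidean inner product. -/
abbrev X (r : ℕ) (ι : Type) [Fintype ι] := EuclideanSpace ℝ (Fin r × ι)

/-- The value at the vertex `v` of the function with label `j`. -/
def hv {E : Type} [NormedAddCommGroup E] [InnerProductSpace ℝ E] {r : ℕ} {ι : Type} [Fintype ι]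
    (p : ι → E) (H : Fin r → ι → ℝ) (u : X r ι) (s : E) (j : Fin r) (v : ι) : ℝ :=
  H j v + u (j, v) + inner ℝ s (p v)

/-- Approximate solutions: `w` are weights on the pairs (label, vertex) whose value is within `δ` of the least value,
`u` is stationary, `t` are weights on the triples (i, j, v), with `i ≠ j`, for which the larger of the two
values at `v` is within `δ` of the least such number, and the mean of the points for `t` differs from `o` by a nonnegative multiple of `s`. -/
structure Sol {E : Type} [NormedAddCommGroup E] [InnerProductSpace ℝ E] {r : ℕ} {ι : Type} [Fintype ι]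
    (p : ι → E) (L : Submodule ℝ (X r ι)) (H : Fin r → ι → ℝ) (o : E) (R ε δ : ℝ)
    (u : X r ι) (s : E) (w : Fin r × ι → ℝ) (t : Fin r × Fin r × ι → ℝ) (κ : ℝ) : Prop where
  hu : u ∈ L
  hs : ‖s‖ ≤ R
  w0 : ∀ q, 0 ≤ w q
  w1 : ∑ q, w q = 1
  wsupp : ∀ j v, w (j, v) ≠ 0 → ∀ j' v', hv p H u s j v ≤ hv p H u s j' v' + δ
  stat : ∀ D ∈ L, 2 * ε * inner ℝ u D = ∑ q, w q * D q
  t0 : ∀ q, 0 ≤ t q
  t1 : ∑ q, t q = 1
  tne : ∀ i j v, t (i, j, v) ≠ 0 → i ≠ j
  tsupp : ∀ i j v, t (i, j, v) ≠ 0 → ∀ i' j' v', i' ≠ j' →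
    max (hv p H u s i v) (hv p H u s j v) ≤ max (hv p H u s i' v') (hv p H u s j' v') + δ
  kap : ∑ q : Fin r × Fin r × ι, t q • p q.2.2 - o = κ • s
  k0 : 0 ≤ κ
  k1 : κ = 0 ∨ ‖s‖ = R

end Pool.Agent.Helper326_TP
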